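import Pool.Agent.Helper8.SPV.All
import Pool.Agent.Helper8.SPV.Bridge

/-! # A special projective variety which is not geometrically-special -/

set_option autoImplicit false

namespace Pool.Agent.Results.MP_aad98f_ag.SpecialNotGeomSpecial

open AlgebraicGeometry CategoryTheory
open Pool.Agent.Helper8.SPN

theorem trdeg_complex : (10 : Cardinal) ≤ Algebra.trdeg ℚ ℂ := by
  obtain ⟨s, hs⟩ := exists_isTranscendenceBasis ℚ ℂ
  have h1 : Cardinal.mk ℂ = Cardinal.mk s :=
    IsAlgClosed.cardinal_eq_cardinal_transcendence_basis_of_aleph0_lt' _ hs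
      (by simp) (by rw [Cardinal.mk_complex]; exact Cardinal.aleph0_lt_continuum)
  rw [← hs.cardinalMk_eq_trdeg, ← h1, Cardinal.mk_complex]
  exact (Cardinal.natCast_lt_aleph0 (n := 10)).le.trans Cardinal.aleph0_le_continuum

/-- For every algebraically closed field `k` of characteristic zero and of transcendence degree at
least `10` over `ℚ` (for instance `ℂ`) there is a smooth projective variety over `k` which is
special and not geometrically-special. -/
theorem result : 10 ≤ Algebra.trdeg ℚ ℂ ∧
    ∀ (k : Type) [Field k] [IsAlgClosed k] [CharZero k], 10 ≤ Algebra.trdeg ℚ k →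
      ∃ (X : Scheme.{0}) (s : X ⟶ Spec (.of k)),
        IsProjVar s ∧ Smooth s ∧ IsSpecial s ∧ ¬ IsGeomSpecial s := by
  refine ⟨trdeg_complex, fun k _ _ _ hk => ?_⟩
  obtain ⟨X, s, h1, h2, h3, h4⟩ := Pool.Agent.Helper8.SPV.fin_FINAL k hk
  exact ⟨X, s, projVar_of h1, h2, special_of h3, fun h => h4 (geom_to h)⟩

end Pool.Agent.Results.MP_aad98f_ag.SpecialNotGeomSpecial
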